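import Mathlib

set_option autoImplicit false
set_option linter.unusedSectionVars false

namespace Pool.Agent.H730Z.Uni

open Finset Matrix

variable {F : Type} [Field F] [Fintype F] [DecidableEq F]

/-- the Hermitian form attached to a ring endomorphism -/
def hf (σ : F →+* F) (v w : Fin 3 → F) : F := ∑ i, v i * σ (w i)

lemma hf_def (σ : F →+* F) (v w : Fin 3 → F) :
    hf σ v w = v 0 * σ (w 0) + v 1 * σ (w 1) + v 2 * σ (w 2) := by
  simp [hf, Fin.sum_univ_three]

lemma hf_smul (σ : F →+* F) (a b : F) (v w : Fin 3 → F) :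
    hf σ (a • v) (b • w) = a * σ b * hf σ v w := by
  simp only [hf_def, Pi.smul_apply, smul_eq_mul, map_mul]; ring

lemma hf_swap (σ : F →+* F) (hσ : ∀ x, σ (σ x) = x) (v w : Fin 3 → F) :
    hf σ w v = σ (hf σ v w) := by
  simp only [hf_def, map_add, map_mul, hσ]; ring

/-- cross product in coordinates -/
def cr (a b : Fin 3 → F) : Fin 3 → F :=
  ![a 1 * b 2 - a 2 * b 1, a 2 * b 0 - a 0 * b 2, a 0 * b 1 - a 1 * b 0]

lemma cr_zero {n v : Fin 3 → F} (hn : n ≠ 0) (h : cr n v = 0) : ∃ c : F, v = c • n := by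
  have h0 := congrFun h 0
  have h1 := congrFun h 1
  have h2 := congrFun h 2
  simp [cr] at h0 h1 h2
  by_cases a0 : n 0 = 0
  · by_cases a1 : n 1 = 0
    · have a2 : n 2 ≠ 0 := by
        intro a2; apply hn; funext i; fin_cases i <;> simp [a0, a1, a2]
      refine ⟨v 2 / n 2, ?_⟩
      funext i; fin_cases i <;> simp <;> field_simp
      · linear_combination h1
      · linear_combination -h0
    · refine ⟨v 1 / n 1, ?_⟩
      funext i; fin_cases i <;> simp <;> field_simp
      · linear_combination -h2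
      · linear_combination h0
  · refine ⟨v 0 / n 0, ?_⟩
    funext i; fin_cases i <;> simp <;> field_simp
    · linear_combination h2
    · linear_combination -h1

lemma card_line (n : Fin 3 → F) (A : Finset (Fin 3 → F)) (h : ∀ v ∈ A, ∃ c : F, v = c • n) :
    A.card ≤ Fintype.card F := by
  calc A.card ≤ ((univ : Finset F).image (fun c => c • n)).card := by
        apply card_le_card
        intro v hv
        obtain ⟨c, rfl⟩ := h v hv
        exact mem_image.2 ⟨c, mem_univ _, rfl⟩
    _ ≤ _ := card_image_le.trans (by simp)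

/-- number of vectors in a hyperplane -/
lemma card_perp (σ : F →+* F) (w : Fin 3 → F) (hw : w ≠ 0) :
    (univ.filter (fun v : Fin 3 → F => hf σ v w = 0)).card = Fintype.card F ^ 2 := by
  obtain ⟨i, hi⟩ : ∃ i, w i ≠ 0 := by
    by_contra hc
    push Not at hc
    exact hw (funext hc)
  have hσi : σ (w i) ≠ 0 := by simpa using hi
  have hadd : ∀ u v : Fin 3 → F, hf σ (u + v) w = hf σ u w + hf σ v w := by
    intro u v; simp only [hf_def, Pi.add_apply]; ring
  have hsing : ∀ c : F, hf σ (Pi.single i (c / σ (w i))) w = c := by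
    intro c
    unfold hf
    rw [Finset.sum_eq_single i]
    · simp; field_simp
    · intro j _ hj; simp [hj]
    · simp
  have hfib : ∀ c : F, (univ.filter (fun v : Fin 3 → F => hf σ v w = c)).card =
      (univ.filter (fun v : Fin 3 → F => hf σ v w = 0)).card := by
    intro c
    symm
    apply card_bij (fun v _ => v + Pi.single i (c / σ (w i)))
    · intro v hv
      simp only [mem_filter, mem_univ, true_and] at hv ⊢
      rw [hadd, hv, hsing, zero_add]
    · intro a _ b _ hab
      exact add_right_cancel hab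
    · intro v hv
      simp only [mem_filter, mem_univ, true_and] at hv
      refine ⟨v - Pi.single i (c / σ (w i)), ?_, by simp⟩
      simp only [mem_filter, mem_univ, true_and]
      have := hadd (v - Pi.single i (c / σ (w i))) (Pi.single i (c / σ (w i)))
      rw [sub_add_cancel, hv, hsing] at this
      linear_combination -this
  have htot := card_eq_sum_card_fiberwise (f := fun v : Fin 3 → F => hf σ v w)
    (s := univ) (t := univ) (fun _ _ => mem_univ _)
  rw [sum_congr rfl (fun c _ => hfib c)] at htot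
  simp only [card_univ, Fintype.card_fun, Fintype.card_fin, sum_const, smul_eq_mul] at htot
  have hpos : 0 < Fintype.card F := Fintype.card_pos
  apply Nat.eq_of_mul_eq_mul_left hpos
  rw [← htot]; ring

lemma card_perp2 (σ : F →+* F) (hσ : ∀ x, σ (σ x) = x) (w w' : Fin 3 → F) (hw : w ≠ 0)
    (h : ¬ ∃ c : F, w' = c • w) :
    (univ.filter (fun v : Fin 3 → F => hf σ v w = 0 ∧ hf σ v w' = 0)).card ≤ Fintype.card F := by
  have hn : cr (fun i => σ (w i)) (fun i => σ (w' i)) ≠ 0 := by
    intro h0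
    apply h
    apply cr_zero hw
    funext i
    have := congrArg σ (congrFun h0 i)
    fin_cases i <;> simpa [cr, hσ] using this
  apply card_line (cr (fun i => σ (w i)) (fun i => σ (w' i)))
  intro v hv
  simp only [mem_filter, mem_univ, true_and, hf_def] at hv
  apply cr_zero hn
  obtain ⟨h1, h2⟩ := hv
  funext i
  fin_cases i <;> simp [cr]
  · linear_combination σ (w' 0) * h1 - σ (w 0) * h2
  · linear_combination σ (w' 1) * h1 - σ (w 1) * h2
  · linear_combination σ (w' 2) * h1 - σ (w 2) * h2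

/-- degree into a set -/
def dg (σ : F →+* F) (T : Finset (Fin 3 → F)) (v : Fin 3 → F) : ℕ :=
  (T.filter (fun w => hf σ v w = 0)).card

lemma sum_dg (σ : F →+* F) (T : Finset (Fin 3 → F)) (hT : ∀ w ∈ T, w ≠ 0) :
    ∑ v, dg σ T v = T.card * Fintype.card F ^ 2 := by
  unfold dg
  simp only [card_filter]
  rw [sum_comm]
  rw [sum_congr rfl (fun w hw => by rw [← card_filter, card_perp σ w (hT w hw)])]
  simp

lemma sum_dg_sq (σ : F →+* F) (hσ : ∀ x, σ (σ x) = x) (T : Finset (Fin 3 → F))
    (hT : ∀ w ∈ T, w ≠ 0) :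
    ∑ v, dg σ T v ^ 2 ≤ T.card * (T.card * Fintype.card F + Fintype.card F ^ 3) := by
  classical
  have e1 : ∀ v, dg σ T v ^ 2 = ∑ w ∈ T, ∑ w' ∈ T,
      if hf σ v w = 0 ∧ hf σ v w' = 0 then 1 else 0 := by
    intro v
    unfold dg
    rw [sq, card_filter, sum_mul_sum]
    refine sum_congr rfl (fun w _ => sum_congr rfl (fun w' _ => ?_))
    by_cases h1 : hf σ v w = 0 <;> by_cases h2 : hf σ v w' = 0 <;> simp [h1, h2]
  simp only [e1]
  rw [sum_comm]
  have : ∀ w ∈ T, ∑ v : Fin 3 → F, ∑ w' ∈ T,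
      (if hf σ v w = 0 ∧ hf σ v w' = 0 then 1 else 0) ≤
      T.card * Fintype.card F + Fintype.card F ^ 3 := by
    intro w hw
    rw [sum_comm]
    have b : ∀ w' ∈ T, ∑ v : Fin 3 → F, (if hf σ v w = 0 ∧ hf σ v w' = 0 then 1 else 0) ≤
        Fintype.card F + (if (∃ c : F, w' = c • w) then Fintype.card F ^ 2 else 0) := by
      intro w' _
      rw [← card_filter]
      by_cases hc : ∃ c : F, w' = c • w
      · rw [if_pos hc, ← card_perp σ w (hT w hw)]
        refine le_trans (card_le_card ?_) (Nat.le_add_left _ _)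
        intro v hv
        simp only [mem_filter, mem_univ, true_and] at hv ⊢
        exact hv.1
      · rw [if_neg hc, add_zero]
        exact card_perp2 σ hσ w w' (hT w hw) hc
    refine (sum_le_sum b).trans ?_
    rw [sum_add_distrib, sum_const, smul_eq_mul, ← sum_filter, sum_const, smul_eq_mul]
    have := card_line w (T.filter (fun w' => ∃ c : F, w' = c • w))
      (fun v hv => (mem_filter.1 hv).2)
    have h3 : (T.filter (fun w' => ∃ c : F, w' = c • w)).card * Fintype.card F ^ 2 ≤
        Fintype.card F ^ 3 := by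
      calc _ ≤ Fintype.card F * Fintype.card F ^ 2 := Nat.mul_le_mul_right _ this
        _ = _ := by ring
    omega
  refine (sum_le_sum this).trans ?_
  simp

/-- expander mixing, lower bound for the number of orthogonal pairs inside `T` -/
lemma mixing (σ : F →+* F) (hσ : ∀ x, σ (σ x) = x) (q : ℕ) (hq : Fintype.card F = q ^ 2)
    (T : Finset (Fin 3 → F)) (hT : ∀ w ∈ T, w ≠ 0) :
    (T.card : ℝ) ^ 2 / q ^ 2 - T.card * q ^ 3 ≤ ∑ v ∈ T, (dg σ T v : ℝ) := by
  have hqpos : (0 : ℝ) < q := by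
    have : 0 < Fintype.card F := Fintype.card_pos
    rw [hq] at this
    have : q ≠ 0 := by rintro rfl; simp at this
    positivity
  have s1 : ∑ v, (dg σ T v : ℝ) = T.card * q ^ 4 := by
    have := sum_dg σ T hT
    rw [hq] at this
    have h2 : ((∑ v, dg σ T v : ℕ) : ℝ) = ((T.card * (q ^ 2) ^ 2 : ℕ) : ℝ) := by rw [this]
    push_cast at h2
    rw [h2]; ring
  have s2 : ∑ v, (dg σ T v : ℝ) ^ 2 ≤ T.card * (T.card * q ^ 2 + q ^ 6) := by
    have := sum_dg_sq σ hσ T hT
    rw [hq] at this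
    have h2 : ((∑ v, dg σ T v ^ 2 : ℕ) : ℝ) ≤
        ((T.card * (T.card * q ^ 2 + (q ^ 2) ^ 3) : ℕ) : ℝ) := by exact_mod_cast this
    push_cast at h2
    refine h2.trans (le_of_eq ?_); ring
  set m : ℝ := T.card / q ^ 2 with hm
  have hc : ((univ : Finset (Fin 3 → F)).card : ℝ) = q ^ 6 := by
    simp only [card_univ, Fintype.card_fun, Fintype.card_fin, hq]; push_cast; ring
  have var : ∑ v, ((dg σ T v : ℝ) - m) ^ 2 ≤ T.card * q ^ 6 := by
    have : ∑ v, ((dg σ T v : ℝ) - m) ^ 2 =
        ∑ v, (dg σ T v : ℝ) ^ 2 - 2 * m * ∑ v, (dg σ T v : ℝ) + q ^ 6 * m ^ 2 := by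
      rw [mul_sum, ← sum_sub_distrib, ← hc, ← nsmul_eq_mul, ← sum_const, ← sum_add_distrib]
      refine sum_congr rfl (fun v _ => by ring)
    rw [this, s1]
    have e : (T.card : ℝ) = m * q ^ 2 := by rw [hm]; field_simp
    rw [e] at s2 ⊢
    nlinarith [s2]
  have var2 : ∑ v ∈ T, ((dg σ T v : ℝ) - m) ^ 2 ≤ T.card * q ^ 6 :=
    le_trans (sum_le_sum_of_subset_of_nonneg (subset_univ _) (fun _ _ _ => sq_nonneg _)) var
  have pt : ∀ v ∈ T, m - (((dg σ T v : ℝ) - m) ^ 2 / q ^ 3 + q ^ 3) / 2 ≤ (dg σ T v : ℝ) := by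
    intro v _
    have h3 : (0 : ℝ) < q ^ 3 := by positivity
    have : (0 : ℝ) ≤ (((dg σ T v : ℝ) - m) + q ^ 3) ^ 2 / q ^ 3 := by positivity
    have e : (((dg σ T v : ℝ) - m) + q ^ 3) ^ 2 / q ^ 3 =
        ((dg σ T v : ℝ) - m) ^ 2 / q ^ 3 + 2 * ((dg σ T v : ℝ) - m) + q ^ 3 := by
      field_simp; ring
    linarith
  refine le_trans ?_ (sum_le_sum pt)
  have e : (T.card : ℝ) ^ 2 / q ^ 2 = T.card * m := by rw [hm]; ring
  clear_value m
  rw [sum_sub_distrib, ← sum_div, sum_add_distrib, ← sum_div, sum_const, sum_const,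
    nsmul_eq_mul, nsmul_eq_mul]
  have h4 : (∑ v ∈ T, ((dg σ T v : ℝ) - m) ^ 2) / q ^ 3 ≤ T.card * q ^ 3 := by
    rw [div_le_iff₀ (by positivity)]
    refine var2.trans (le_of_eq (by ring))
  rw [e]
  linarith

end Pool.Agent.H730Z.Uni
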