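import Pool.Agent.H730Z.UniA

set_option autoImplicit false
set_option linter.unusedSectionVars false

namespace Pool.Agent.H730Z.Uni

open Finset Matrix

variable {F : Type} [Field F] [Fintype F] [DecidableEq F]

/-- matrices preserving the form -/
def UU (σ : F →+* F) : Finset (Matrix (Fin 3) (Fin 3) F) :=
  univ.filter (fun g => ∀ v w, hf σ (g *ᵥ v) (g *ᵥ w) = hf σ v w)

lemma mem_UU {σ : F →+* F} {g : Matrix (Fin 3) (Fin 3) F} :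
    g ∈ UU σ ↔ ∀ v w, hf σ (g *ᵥ v) (g *ᵥ w) = hf σ v w := by simp [UU]

lemma one_mem_UU (σ : F →+* F) : (1 : Matrix (Fin 3) (Fin 3) F) ∈ UU σ := by
  rw [mem_UU]; intro v w; simp

lemma mul_mem_UU {σ : F →+* F} {g h : Matrix (Fin 3) (Fin 3) F} (hg : g ∈ UU σ) (hh : h ∈ UU σ) :
    g * h ∈ UU σ := by
  rw [mem_UU] at *
  intro v w
  rw [← mulVec_mulVec, ← mulVec_mulVec, hg, hh]

lemma UU_inj {σ : F →+* F} {g : Matrix (Fin 3) (Fin 3) F} (hg : g ∈ UU σ) :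
    Function.Injective (fun v => g *ᵥ v) := by
  rw [mem_UU] at hg
  intro u v huv
  have h0 : g *ᵥ (u - v) = 0 := by
    rw [mulVec_sub]; exact sub_eq_zero.2 huv
  funext i
  have := hg (u - v) (Pi.single i 1)
  rw [h0] at this
  fin_cases i <;> simp [hf_def] at this <;> simp <;> linear_combination -this

lemma UU_unit {σ : F →+* F} {g : Matrix (Fin 3) (Fin 3) F} (hg : g ∈ UU σ) : IsUnit g :=
  mulVec_injective_iff_isUnit.1 (UU_inj hg)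

/-- right multiplication by an element of `UU` permutes `UU` -/
lemma sum_UU_mul {σ : F →+* F} {h : Matrix (Fin 3) (Fin 3) F} (hh : h ∈ UU σ)
    (φ : Matrix (Fin 3) (Fin 3) F → ℤ) : ∑ g ∈ UU σ, φ (g * h) = ∑ g ∈ UU σ, φ g := by
  have hinj : Function.Injective (fun g : Matrix (Fin 3) (Fin 3) F => g * h) :=
    fun a b hab => (UU_unit hh).mul_right_cancel hab
  have himg : (UU σ).image (fun g => g * h) = UU σ := by
    apply eq_of_subset_of_card_le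
    · intro x hx
      obtain ⟨g, hg, rfl⟩ := mem_image.1 hx
      exact mul_mem_UU hg hh
    · rw [card_image_of_injective _ hinj]
  conv_rhs => rw [← himg]
  rw [sum_image (fun a _ b _ hab => hinj hab)]

/-- orthogonal non-isotropic triples -/
def Tri (σ : F →+* F) (a b c : Fin 3 → F) : Prop :=
  hf σ a a ≠ 0 ∧ hf σ b b ≠ 0 ∧ hf σ c c ≠ 0 ∧ hf σ a b = 0 ∧ hf σ b c = 0 ∧ hf σ a c = 0

lemma Tri.map {σ : F →+* F} {a b c : Fin 3 → F} (h : Tri σ a b c) {g : Matrix (Fin 3) (Fin 3) F}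
    (hg : g ∈ UU σ) : Tri σ (g *ᵥ a) (g *ᵥ b) (g *ᵥ c) := by
  rw [mem_UU] at hg
  unfold Tri at *
  simpa only [hg] using h

/-- every orthogonal non-isotropic triple is, up to scalars, the triple of columns of a unitary
matrix -/
lemma exists_frame {σ : F →+* F} (hσ : ∀ x, σ (σ x) = x)
    (hN : ∀ c : F, c ≠ 0 → σ c = c → ∃ l : F, l * σ l = c)
    {a b c : Fin 3 → F} (h : Tri σ a b c) :
    ∃ g ∈ UU σ, ∃ l m n : F, l ≠ 0 ∧ m ≠ 0 ∧ n ≠ 0 ∧ g *ᵥ ![1, 0, 0] = l • a ∧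
      g *ᵥ ![0, 1, 0] = m • b ∧ g *ᵥ ![0, 0, 1] = n • c := by
  obtain ⟨ha, hb, hc, hab, hbc, hac⟩ := h
  have key : ∀ v : Fin 3 → F, hf σ v v ≠ 0 → ∃ l : F, l ≠ 0 ∧ hf σ (l • v) (l • v) = 1 := by
    intro v hv
    have hs : σ (hf σ v v)⁻¹ = (hf σ v v)⁻¹ := by
      rw [map_inv₀, ← hf_swap σ hσ]
    obtain ⟨l, hl⟩ := hN _ (inv_ne_zero hv) hs
    refine ⟨l, ?_, ?_⟩
    · rintro rfl
      exact inv_ne_zero hv (by simpa using hl.symm)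
    · rw [hf_smul, hl, inv_mul_cancel₀ hv]
  obtain ⟨l, hl0, hl⟩ := key a ha
  obtain ⟨m, hm0, hm⟩ := key b hb
  obtain ⟨n, hn0, hn⟩ := key c hc
  have hba : hf σ b a = 0 := by rw [hf_swap σ hσ, hab, map_zero]
  have hcb : hf σ c b = 0 := by rw [hf_swap σ hσ, hbc, map_zero]
  have hca : hf σ c a = 0 := by rw [hf_swap σ hσ, hac, map_zero]
  have h12 : hf σ (l • a) (m • b) = 0 := by rw [hf_smul, hab, mul_zero]
  have h21 : hf σ (m • b) (l • a) = 0 := by rw [hf_smul, hba, mul_zero]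
  have h23 : hf σ (m • b) (n • c) = 0 := by rw [hf_smul, hbc, mul_zero]
  have h32 : hf σ (n • c) (m • b) = 0 := by rw [hf_smul, hcb, mul_zero]
  have h13 : hf σ (l • a) (n • c) = 0 := by rw [hf_smul, hac, mul_zero]
  have h31 : hf σ (n • c) (l • a) = 0 := by rw [hf_smul, hca, mul_zero]
  have main : ∀ A B C : Fin 3 → F, hf σ A A = 1 → hf σ B B = 1 → hf σ C C = 1 →
      hf σ A B = 0 → hf σ B A = 0 → hf σ B C = 0 → hf σ C B = 0 → hf σ A C = 0 → hf σ C A = 0 →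
      ∃ g ∈ UU σ, g *ᵥ ![1, 0, 0] = A ∧ g *ᵥ ![0, 1, 0] = B ∧ g *ᵥ ![0, 0, 1] = C := by
    intro A B C a1 a2 a3 a4 a5 a6 a7 a8 a9
    refine ⟨Matrix.of (fun i j => ![A i, B i, C i] j), ?_, ?_, ?_, ?_⟩
    · rw [mem_UU]
      intro v w
      simp only [hf_def] at *
      simp only [mulVec, dotProduct, Fin.sum_univ_three, of_apply, cons_val_zero, cons_val_one,
        cons_val_two, head_cons, tail_cons, map_add, map_mul]
      linear_combination v 0 * σ (w 0) * a1 + v 1 * σ (w 1) * a2 + v 2 * σ (w 2) * a3 +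
        v 0 * σ (w 1) * a4 + v 1 * σ (w 0) * a5 + v 1 * σ (w 2) * a6 + v 2 * σ (w 1) * a7 +
        v 0 * σ (w 2) * a8 + v 2 * σ (w 0) * a9
    · funext i; simp [mulVec, dotProduct, Fin.sum_univ_three]
    · funext i; simp [mulVec, dotProduct, Fin.sum_univ_three]
    · funext i; simp [mulVec, dotProduct, Fin.sum_univ_three]
  obtain ⟨g, hg, e1, e2, e3⟩ := main _ _ _ hl hm hn h12 h21 h23 h32 h13 h31
  exact ⟨g, hg, l, m, n, hl0, hm0, hn0, e1, e2, e3⟩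

/-- the average of a function of the three indicator values does not depend on the triple -/
lemma sum_frame {σ : F →+* F} (hσ : ∀ x, σ (σ x) = x)
    (hN : ∀ c : F, c ≠ 0 → σ c = c → ∃ l : F, l * σ l = c)
    (f : (Fin 3 → F) → ℤ) (hf1 : ∀ (l : F) (v : Fin 3 → F), l ≠ 0 → f (l • v) = f v)
    (Φ : ℤ → ℤ → ℤ → ℤ) {a b c : Fin 3 → F} (h : Tri σ a b c) :
    ∑ g ∈ UU σ, Φ (f (g *ᵥ a)) (f (g *ᵥ b)) (f (g *ᵥ c)) =
      ∑ g ∈ UU σ, Φ (f (g *ᵥ ![1, 0, 0])) (f (g *ᵥ ![0, 1, 0])) (f (g *ᵥ ![0, 0, 1])) := by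
  obtain ⟨k, hk, l, m, n, hl, hm, hn, e1, e2, e3⟩ := exists_frame hσ hN h
  rw [← sum_UU_mul hk
    (fun g => Φ (f (g *ᵥ ![1, 0, 0])) (f (g *ᵥ ![0, 1, 0])) (f (g *ᵥ ![0, 0, 1])))]
  refine sum_congr rfl (fun g _ => ?_)
  simp only [← mulVec_mulVec, e1, e2, e3, mulVec_smul, hf1 _ _ hl, hf1 _ _ hm, hf1 _ _ hn]

lemma tri_extend {σ : F →+* F} (hσ : ∀ x, σ (σ x) = x) {a b : Fin 3 → F}
    (ha : hf σ a a ≠ 0) (hb : hf σ b b ≠ 0) (hab : hf σ a b = 0) :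
    ∃ c, Tri σ a b c := by
  have hba : hf σ b a = 0 := by rw [hf_swap σ hσ, hab, map_zero]
  refine ⟨fun i => σ (cr a b i), ha, hb, ?_, hab, ?_, ?_⟩
  · have : hf σ (fun i => σ (cr a b i)) (fun i => σ (cr a b i)) =
        hf σ a a * hf σ b b - hf σ a b * hf σ b a := by
      simp [hf_def, cr, hσ]; ring
    rw [this, hab, zero_mul, sub_zero]
    exact mul_ne_zero ha hb
  · simp [hf_def, cr, hσ]; ring
  · simp [hf_def, cr, hσ]; ring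

/-- vectors with small natural coordinates -/
def vec (F : Type) [Field F] (t : ℕ × ℕ × ℕ) : Fin 3 → F := ![(t.1 : F), (t.2.1 : F), (t.2.2 : F)]

def dt (s t : ℕ × ℕ × ℕ) : ℕ := s.1 * t.1 + s.2.1 * t.2.1 + s.2.2 * t.2.2

lemma hf_vec (σ : F →+* F) (s t : ℕ × ℕ × ℕ) : hf σ (vec F s) (vec F t) = (dt s t : F) := by
  simp [hf_def, vec, dt]

def LL : List ((ℕ × ℕ × ℕ) × (ℕ × ℕ × ℕ) × (ℕ × ℕ × ℕ)) :=
  [((0, 0, 1), (0, 1, 0), (1, 0, 0)), ((0, 0, 1), (1, 1, 0), (1, 6, 0)),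
   ((0, 1, 0), (1, 0, 1), (1, 0, 6)), ((1, 0, 1), (1, 3, 6), (1, 4, 6)),
   ((1, 0, 2), (1, 1, 3), (1, 4, 3)), ((1, 0, 2), (1, 3, 3), (1, 6, 3)),
   ((1, 0, 5), (1, 1, 4), (1, 4, 4)), ((1, 0, 5), (1, 3, 4), (1, 6, 4)),
   ((1, 0, 6), (1, 3, 1), (1, 4, 1)), ((1, 1, 0), (1, 6, 3), (1, 6, 4)),
   ((1, 1, 3), (1, 1, 4), (1, 6, 0)), ((1, 2, 0), (1, 3, 1), (1, 3, 4)),
   ((1, 2, 0), (1, 3, 3), (1, 3, 6)), ((1, 4, 1), (1, 4, 4), (1, 5, 0)),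
   ((1, 4, 3), (1, 4, 6), (1, 5, 0))]

lemma LL_ok : ∀ t ∈ LL, ¬ 7 ∣ dt t.1 t.1 ∧ ¬ 7 ∣ dt t.2.1 t.2.1 ∧ ¬ 7 ∣ dt t.2.2 t.2.2 ∧
    7 ∣ dt t.1 t.2.1 ∧ 7 ∣ dt t.2.1 t.2.2 ∧ 7 ∣ dt t.1 t.2.2 := by decide

lemma LL_tri [CharP F 7] (σ : F →+* F) : ∀ t ∈ LL, Tri σ (vec F t.1) (vec F t.2.1) (vec F t.2.2) := by
  intro t ht
  unfold Tri
  simp only [hf_vec, Ne, CharP.cast_eq_zero_iff F 7]
  exact LL_ok t ht

/-- parity indicator of a triple of zero-one values that are not all one -/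
def OO (x y z : ℤ) : ℤ := x + y + z - 2 * (x * y + y * z + x * z)

lemma LL_parity (x : ℕ × ℕ × ℕ → ℤ) :
    ∃ k : ℤ, (LL.map (fun t => OO (x t.1) (x t.2.1) (x t.2.2))).sum = x (1, 0, 0) + 2 * k := by
  have h1 : ∀ L : List ((ℕ × ℕ × ℕ) × (ℕ × ℕ × ℕ) × (ℕ × ℕ × ℕ)), ∃ k : ℤ,
      (L.map (fun t => OO (x t.1) (x t.2.1) (x t.2.2))).sum =
        (L.map (fun t => x t.1 + x t.2.1 + x t.2.2)).sum + 2 * k := by
    intro L
    induction L with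
    | nil => exact ⟨0, by simp⟩
    | cons t L ih =>
      obtain ⟨k, hk⟩ := ih
      refine ⟨k - (x t.1 * x t.2.1 + x t.2.1 * x t.2.2 + x t.1 * x t.2.2), ?_⟩
      rw [List.map_cons, List.sum_cons, hk, List.map_cons, List.sum_cons]
      unfold OO
      ring
  obtain ⟨k, hk⟩ := h1 LL
  refine ⟨k + (x (0, 0, 1) + x (0, 1, 0) + x (1, 0, 1) + x (1, 0, 2) + x (1, 0, 5) + x (1, 0, 6) +
    x (1, 1, 0) + x (1, 1, 3) + x (1, 1, 4) + x (1, 2, 0) + x (1, 3, 1) + x (1, 3, 3) + x (1, 3, 4) +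
    x (1, 3, 6) + x (1, 4, 1) + x (1, 4, 3) + x (1, 4, 4) + x (1, 4, 6) + x (1, 5, 0) + x (1, 6, 0) +
    x (1, 6, 3) + x (1, 6, 4)), ?_⟩
  rw [hk]
  simp only [LL, List.map_cons, List.sum_cons, List.map_nil, List.sum_nil]
  ring

lemma list_sum_comm {α β : Type} (L : List α) (s : Finset β) (φ : α → β → ℤ) :
    ∑ g ∈ s, (L.map (fun t => φ t g)).sum = (L.map (fun t => ∑ g ∈ s, φ t g)).sum := by
  induction L with
  | nil => simp
  | cons t L ih => simp only [List.map_cons, List.sum_cons, sum_add_distrib, ih]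

/-- the basic inequality in the group model -/
lemma group_ineq [CharP F 7] {σ : F →+* F} (hσ : ∀ x, σ (σ x) = x)
    (hN : ∀ c : F, c ≠ 0 → σ c = c → ∃ l : F, l * σ l = c)
    (f : (Fin 3 → F) → ℤ) (hf1 : ∀ (l : F) (v : Fin 3 → F), l ≠ 0 → f (l • v) = f v)
    (h01 : ∀ v, f v = 0 ∨ f v = 1)
    (hfree : ∀ a b c, Tri σ a b c → ¬ (f a = 1 ∧ f b = 1 ∧ f c = 1)) :
    91 * ∑ g ∈ UU σ, f (g *ᵥ ![1, 0, 0]) * f (g *ᵥ ![0, 1, 0]) ≤
      45 * ∑ g ∈ UU σ, f (g *ᵥ ![1, 0, 0]) := by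
  set A := ∑ g ∈ UU σ, f (g *ᵥ ![1, 0, 0]) with hA
  set B := ∑ g ∈ UU σ, f (g *ᵥ ![1, 0, 0]) * f (g *ᵥ ![0, 1, 0]) with hB
  have hBA : B ≤ A := by
    apply sum_le_sum
    intro g _
    rcases h01 (g *ᵥ ![1, 0, 0]) with h | h <;> rcases h01 (g *ᵥ ![0, 1, 0]) with h' | h' <;>
      simp [h, h']
  have t231 : Tri σ ![0, 1, 0] ![0, 0, 1] ![1, 0, 0] := by simp [Tri, hf_def]
  have t312 : Tri σ ![0, 0, 1] ![1, 0, 0] ![0, 1, 0] := by simp [Tri, hf_def]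
  have t132 : Tri σ ![1, 0, 0] ![0, 0, 1] ![0, 1, 0] := by simp [Tri, hf_def]
  have A2 : ∑ g ∈ UU σ, f (g *ᵥ ![0, 1, 0]) = A :=
    sum_frame hσ hN f hf1 (fun x _ _ => x) t231
  have A3 : ∑ g ∈ UU σ, f (g *ᵥ ![0, 0, 1]) = A :=
    sum_frame hσ hN f hf1 (fun x _ _ => x) t312
  have B2 : ∑ g ∈ UU σ, f (g *ᵥ ![0, 1, 0]) * f (g *ᵥ ![0, 0, 1]) = B :=
    sum_frame hσ hN f hf1 (fun x y _ => x * y) t231
  have B3 : ∑ g ∈ UU σ, f (g *ᵥ ![1, 0, 0]) * f (g *ᵥ ![0, 0, 1]) = B :=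
    sum_frame hσ hN f hf1 (fun x y _ => x * y) t132
  have hO : ∑ g ∈ UU σ, OO (f (g *ᵥ ![1, 0, 0])) (f (g *ᵥ ![0, 1, 0])) (f (g *ᵥ ![0, 0, 1])) =
      3 * A - 6 * B := by
    simp only [OO, sum_sub_distrib, sum_add_distrib, ← mul_sum, A2, A3, B2, B3, ← hA, ← hB]
    ring
  have pt : ∀ g ∈ UU σ, f (g *ᵥ ![1, 0, 0]) ≤
      (LL.map (fun t => OO (f (g *ᵥ vec F t.1)) (f (g *ᵥ vec F t.2.1))
        (f (g *ᵥ vec F t.2.2)))).sum := by
    intro g hg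
    obtain ⟨k, hk⟩ := LL_parity (fun s => f (g *ᵥ vec F s))
    have h0 : 0 ≤ (LL.map (fun t => OO (f (g *ᵥ vec F t.1)) (f (g *ᵥ vec F t.2.1))
        (f (g *ᵥ vec F t.2.2)))).sum := by
      apply List.sum_nonneg
      intro y hy
      obtain ⟨t, ht, rfl⟩ := List.mem_map.1 hy
      have := hfree _ _ _ ((LL_tri σ t ht).map hg)
      rcases h01 (g *ᵥ vec F t.1) with h | h <;> rcases h01 (g *ᵥ vec F t.2.1) with h' | h' <;>
        rcases h01 (g *ᵥ vec F t.2.2) with h'' | h'' <;> simp [h, h', h'', OO] at this ⊢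
    have e : vec F (1, 0, 0) = ![1, 0, 0] := by simp [vec]
    simp only [e] at hk
    rcases h01 (g *ᵥ ![1, 0, 0]) with h | h <;> omega
  have tot := sum_le_sum pt
  rw [list_sum_comm] at tot
  have e2 : (LL.map (fun t => ∑ g ∈ UU σ, OO (f (g *ᵥ vec F t.1)) (f (g *ᵥ vec F t.2.1))
        (f (g *ᵥ vec F t.2.2)))) = LL.map (fun _ => 3 * A - 6 * B) := by
    apply List.map_congr_left
    intro t ht
    rw [sum_frame hσ hN f hf1 OO (LL_tri σ t ht), hO]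
  rw [e2] at tot
  simp only [List.map_const', List.sum_replicate, nsmul_eq_mul] at tot
  have hl : LL.length = 15 := rfl
  rw [hl, ← hA] at tot
  push_cast at tot
  linarith

end Pool.Agent.H730Z.Uni
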