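import Pool.Agent.H730Z.UniB

set_option autoImplicit false
set_option linter.unusedSectionVars false

namespace Pool.Agent.H730Z.Uni

open Finset Matrix

variable {F : Type} [Field F] [Fintype F] [DecidableEq F]

/-- ordered orthogonal pairs of non-isotropic vectors -/
def P2 (σ : F →+* F) : Finset ((Fin 3 → F) × (Fin 3 → F)) :=
  univ.filter (fun p => hf σ p.1 p.1 ≠ 0 ∧ hf σ p.2 p.2 ≠ 0 ∧ hf σ p.1 p.2 = 0)

lemma sum_P2 {σ : F →+* F} {g : Matrix (Fin 3) (Fin 3) F} (hg : g ∈ UU σ)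
    (ψ : (Fin 3 → F) → (Fin 3 → F) → ℤ) :
    ∑ p ∈ P2 σ, ψ (g *ᵥ p.1) (g *ᵥ p.2) = ∑ p ∈ P2 σ, ψ p.1 p.2 := by
  have hinj : Function.Injective
      (fun p : (Fin 3 → F) × (Fin 3 → F) => (g *ᵥ p.1, g *ᵥ p.2)) := by
    intro a b hab
    simp only [Prod.mk.injEq] at hab
    exact Prod.ext (UU_inj hg hab.1) (UU_inj hg hab.2)
  have himg : (P2 σ).image (fun p => (g *ᵥ p.1, g *ᵥ p.2)) = P2 σ := by
    apply eq_of_subset_of_card_le
    · intro x hx
      obtain ⟨p, hp, rfl⟩ := mem_image.1 hx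
      rw [mem_UU] at hg
      simp only [P2, mem_filter, mem_univ, true_and, hg] at hp ⊢
      exact hp
    · rw [card_image_of_injective _ hinj]
  conv_rhs => rw [← himg]
  rw [sum_image (fun a _ b _ hab => hinj hab)]

lemma double_count {σ : F →+* F} (hσ : ∀ x, σ (σ x) = x)
    (hN : ∀ c : F, c ≠ 0 → σ c = c → ∃ l : F, l * σ l = c)
    (f : (Fin 3 → F) → ℤ) (hf1 : ∀ (l : F) (v : Fin 3 → F), l ≠ 0 → f (l • v) = f v)
    (Φ : ℤ → ℤ → ℤ) :
    ((P2 σ).card : ℤ) * ∑ g ∈ UU σ, Φ (f (g *ᵥ ![1, 0, 0])) (f (g *ᵥ ![0, 1, 0])) =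
      ((UU σ).card : ℤ) * ∑ p ∈ P2 σ, Φ (f p.1) (f p.2) := by
  have h1 : ∀ p ∈ P2 σ, ∑ g ∈ UU σ, Φ (f (g *ᵥ p.1)) (f (g *ᵥ p.2)) =
      ∑ g ∈ UU σ, Φ (f (g *ᵥ ![1, 0, 0])) (f (g *ᵥ ![0, 1, 0])) := by
    intro p hp
    simp only [P2, mem_filter, mem_univ, true_and] at hp
    obtain ⟨c, hc⟩ := tri_extend hσ hp.1 hp.2.1 hp.2.2
    exact sum_frame hσ hN f hf1 (fun x y _ => Φ x y) hc
  have h2 : ∀ g ∈ UU σ, ∑ p ∈ P2 σ, Φ (f (g *ᵥ p.1)) (f (g *ᵥ p.2)) =
      ∑ p ∈ P2 σ, Φ (f p.1) (f p.2) := fun g hg => sum_P2 hg (fun a b => Φ (f a) (f b))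
  rw [← nsmul_eq_mul, ← nsmul_eq_mul, ← sum_const, ← sum_const, ← sum_congr rfl h1,
    ← sum_congr rfl h2, sum_comm]

/-- the inequality for a scale invariant triangle-free set of vectors -/
lemma vec_ineq [CharP F 7] {σ : F →+* F} (hσ : ∀ x, σ (σ x) = x)
    (hN : ∀ c : F, c ≠ 0 → σ c = c → ∃ l : F, l * σ l = c)
    (T : Finset (Fin 3 → F)) (hT : ∀ v ∈ T, hf σ v v ≠ 0)
    (hs : ∀ (l : F) (v : Fin 3 → F), l ≠ 0 → (l • v ∈ T ↔ v ∈ T))
    (hfree : ∀ a ∈ T, ∀ b ∈ T, ∀ c ∈ T, ¬ Tri σ a b c) :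
    91 * ∑ v ∈ T, dg σ T v ≤ 45 * (T.card * Fintype.card F ^ 2) := by
  let f : (Fin 3 → F) → ℤ := fun v => if v ∈ T then 1 else 0
  have hf1 : ∀ (l : F) (v : Fin 3 → F), l ≠ 0 → f (l • v) = f v := by
    intro l v hl
    simp only [f, hs l v hl]
  have h01 : ∀ v, f v = 0 ∨ f v = 1 := by
    intro v; by_cases h : v ∈ T <;> simp [f, h]
  have hm : ∀ v, f v = 1 → v ∈ T := by
    intro v; by_cases h : v ∈ T <;> simp [f, h]
  have G := group_ineq hσ hN f hf1 h01
    (fun a b c h h' => hfree a (hm _ h'.1) b (hm _ h'.2.1) c (hm _ h'.2.2) h)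
  have D1 := double_count hσ hN f hf1 (fun x _ => x)
  have D2 := double_count hσ hN f hf1 (fun x y => x * y)
  have hU : (0 : ℤ) < (UU σ).card := by
    exact_mod_cast card_pos.2 ⟨1, one_mem_UU σ⟩
  have hP : (0 : ℤ) ≤ (P2 σ).card := Int.natCast_nonneg _
  have G2 : 91 * ∑ p ∈ P2 σ, f p.1 * f p.2 ≤ 45 * ∑ p ∈ P2 σ, f p.1 := by
    have := mul_le_mul_of_nonneg_left G hP
    apply le_of_mul_le_mul_left _ hU
    nlinarith [this, D1, D2]
  have hne : ∀ v ∈ T, v ≠ 0 := by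
    intro v hv h0
    apply hT v hv
    simp [h0, hf_def]
  have E1 : ∑ p ∈ P2 σ, f p.1 * f p.2 = ((∑ v ∈ T, dg σ T v : ℕ) : ℤ) := by
    have : ∑ p ∈ P2 σ, f p.1 * f p.2 =
        (((P2 σ).filter (fun p => p.1 ∈ T ∧ p.2 ∈ T)).card : ℤ) := by
      rw [card_filter]; push_cast
      refine sum_congr rfl (fun p _ => ?_)
      by_cases h1 : p.1 ∈ T <;> by_cases h2 : p.2 ∈ T <;> simp [f, h1, h2]
    rw [this]
    congr 1
    have e : (P2 σ).filter (fun p => p.1 ∈ T ∧ p.2 ∈ T) =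
        (T ×ˢ T).filter (fun p => hf σ p.1 p.2 = 0) := by
      ext p
      simp only [P2, mem_filter, mem_univ, true_and, mem_product]
      constructor
      · rintro ⟨⟨_, _, h3⟩, h4, h5⟩; exact ⟨⟨h4, h5⟩, h3⟩
      · rintro ⟨⟨h4, h5⟩, h3⟩; exact ⟨⟨hT _ h4, hT _ h5, h3⟩, h4, h5⟩
    rw [e, card_filter, sum_product]
    refine sum_congr rfl (fun v _ => ?_)
    rw [dg, card_filter]
  have E2 : ∑ p ∈ P2 σ, f p.1 ≤ ((T.card * Fintype.card F ^ 2 : ℕ) : ℤ) := by
    have : ∑ p ∈ P2 σ, f p.1 = (((P2 σ).filter (fun p => p.1 ∈ T)).card : ℤ) := by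
      rw [card_filter]; push_cast
      rfl
    rw [this]
    have e : (P2 σ).filter (fun p => p.1 ∈ T) ⊆
        (T ×ˢ univ).filter (fun p => hf σ p.2 p.1 = 0) := by
      intro p
      simp only [P2, mem_filter, mem_univ, true_and, mem_product, and_true]
      rintro ⟨⟨_, _, h3⟩, h4⟩
      exact ⟨h4, by rw [hf_swap σ hσ, h3, map_zero]⟩
    have := (card_le_card e).trans (le_of_eq ((card_filter _ _).trans (sum_product _ _ _)))
    have e2 : ∀ v ∈ T, ∑ y : Fin 3 → F, (if hf σ y v = 0 then 1 else 0) = Fintype.card F ^ 2 := by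
      intro v hv
      rw [← card_filter, card_perp σ v (hne v hv)]
    simp only at this
    rw [sum_congr rfl e2, sum_const, smul_eq_mul] at this
    exact_mod_cast this
  rw [E1] at G2
  have : (91 : ℤ) * ((∑ v ∈ T, dg σ T v : ℕ) : ℤ) ≤
      45 * ((T.card * Fintype.card F ^ 2 : ℕ) : ℤ) := by linarith
  exact_mod_cast this

lemma vec_bound [CharP F 7] {σ : F →+* F} (hσ : ∀ x, σ (σ x) = x)
    (hN : ∀ c : F, c ≠ 0 → σ c = c → ∃ l : F, l * σ l = c)
    (q : ℕ) (hq : Fintype.card F = q ^ 2)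
    (T : Finset (Fin 3 → F)) (hT : ∀ v ∈ T, hf σ v v ≠ 0)
    (hs : ∀ (l : F) (v : Fin 3 → F), l ≠ 0 → (l • v ∈ T ↔ v ∈ T))
    (hfree : ∀ a ∈ T, ∀ b ∈ T, ∀ c ∈ T, ¬ Tri σ a b c) :
    (T.card : ℝ) ≤ 45 / 91 * q ^ 6 + q ^ 5 := by
  have hne : ∀ v ∈ T, v ≠ 0 := by
    intro v hv h0
    apply hT v hv
    simp [h0, hf_def]
  have h1 := vec_ineq hσ hN T hT hs hfree
  have h2 := mixing σ hσ q hq T hne
  rw [hq] at h1
  have h3 : (91 : ℝ) * ∑ v ∈ T, (dg σ T v : ℝ) ≤ 45 * (T.card * (q ^ 2) ^ 2) := by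
    exact_mod_cast h1
  have hqpos : (0 : ℝ) < q := by
    have : 0 < Fintype.card F := Fintype.card_pos
    rw [hq] at this
    have : q ≠ 0 := by rintro rfl; simp at this
    positivity
  rcases Nat.eq_zero_or_pos T.card with h0 | h0
  · rw [h0]; simp only [Nat.cast_zero]; positivity
  have ht : (0 : ℝ) < T.card := by exact_mod_cast h0
  have h4 : (T.card : ℝ) * (91 * (T.card / q ^ 2 - q ^ 3)) ≤ T.card * (45 * q ^ 4) := by
    have e : (T.card : ℝ) * (91 * (T.card / q ^ 2 - q ^ 3)) =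
        91 * ((T.card : ℝ) ^ 2 / q ^ 2 - T.card * q ^ 3) := by ring
    rw [e]; nlinarith
  have h5 := le_of_mul_le_mul_left h4 ht
  have h6 : (T.card : ℝ) / q ^ 2 ≤ 45 / 91 * q ^ 4 + q ^ 3 := by linarith
  rw [div_le_iff₀ (by positivity)] at h6
  refine h6.trans (le_of_eq (by ring))

/-- few isotropic vectors -/
lemma card_iso {σ : F →+* F} (q : ℕ) (hσq : ∀ x, σ x = x ^ q) :
    (univ.filter (fun v : Fin 3 → F => hf σ v v = 0)).card ≤ Fintype.card F ^ 2 * (q + 1) := by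
  have h := card_le_mul_card_image (s := univ.filter (fun v : Fin 3 → F => hf σ v v = 0))
    (f := fun v => (v 1, v 2)) (q + 1) (by
      intro p _
      let P : Polynomial F := Polynomial.X ^ (q + 1) -
        Polynomial.C (-(p.1 * σ p.1 + p.2 * σ p.2))
      have hP : P ≠ 0 := Polynomial.X_pow_sub_C_ne_zero (Nat.succ_pos q) _
      have hdeg : P.natDegree = q + 1 := Polynomial.natDegree_X_pow_sub_C
      calc _ ≤ P.roots.toFinset.card := by
            apply card_le_card_of_injOn (fun v => v 0)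
            · intro v hv
              simp only [coe_filter, mem_filter, mem_univ, true_and, Set.mem_ofPred_eq] at hv
              obtain ⟨h1, h2⟩ := hv
              simp only [Multiset.mem_toFinset, mem_coe, Polynomial.mem_roots hP,
                Polynomial.IsRoot.def, P, Polynomial.eval_sub, Polynomial.eval_pow,
                Polynomial.eval_X, Polynomial.eval_C]
              rw [hf_def, hσq (v 0)] at h1
              rw [← h2]
              linear_combination h1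
            · intro v hv w hw hvw
              simp only [coe_filter, mem_filter, mem_univ, true_and, Set.mem_ofPred_eq] at hv hw
              have := hv.2.trans hw.2.symm
              simp only [Prod.mk.injEq] at this
              funext i
              fin_cases i
              · exact hvw
              · exact this.1
              · exact this.2
        _ ≤ Multiset.card P.roots := Multiset.toFinset_card_le _
        _ ≤ P.natDegree := Polynomial.card_roots' P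
        _ = q + 1 := hdeg)
  refine h.trans ?_
  rw [mul_comm]
  apply Nat.mul_le_mul_right
  refine (card_le_univ _).trans ?_
  simp [sq]

lemma norm_surj (q : ℕ) (hq : Fintype.card F = q ^ 2) (c : F) (hc : c ≠ 0) (h : c ^ q = c) :
    ∃ l : F, l * l ^ q = c := by
  obtain ⟨γ, hγ⟩ := IsCyclic.exists_generator (α := Fˣ)
  have hord : orderOf γ = q ^ 2 - 1 := by
    rw [orderOf_eq_card_of_forall_mem_zpowers hγ, Nat.card_eq_fintype_card, Fintype.card_units, hq]
  have hq2 : 2 ≤ q := by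
    have : 1 < Fintype.card F := Fintype.one_lt_card
    rw [hq] at this
    by_contra hlt
    have : q = 0 ∨ q = 1 := by omega
    rcases this with rfl | rfl <;> simp at this
  obtain ⟨k, hk⟩ : ∃ k : ℕ, γ ^ k = Units.mk0 c hc :=
    (mem_powers_iff_mem_zpowers).2 (hγ _)
  obtain ⟨r, rfl⟩ : ∃ r, q = r + 1 := ⟨q - 1, by omega⟩
  have h1 : γ ^ (k * r) = 1 := by
    rw [pow_mul, hk]
    apply Units.ext
    simp only [Units.val_pow_eq_pow_val, Units.val_mk0, Units.val_one]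
    rw [pow_succ] at h
    exact mul_right_cancel₀ hc (h.trans (one_mul c).symm)
  have h2 := orderOf_dvd_of_pow_eq_one h1
  have e : (r + 1) ^ 2 - 1 = (r + 2) * r := by
    have : (r + 1) ^ 2 = (r + 2) * r + 1 := by ring
    omega
  rw [hord, e] at h2
  obtain ⟨j, hj⟩ := Nat.dvd_of_mul_dvd_mul_right (by omega : 0 < r) h2
  refine ⟨((γ ^ j : Fˣ) : F), ?_⟩
  have : ((γ ^ k : Fˣ) : F) = c := by rw [hk]; rfl
  rw [← this, hj]
  simp only [Units.val_pow_eq_pow_val]
  ring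

/-- main bound for sets of projective points -/
theorem proj_bound [CharP F 7] {σ : F →+* F} (q : ℕ) (hq : Fintype.card F = q ^ 2)
    (hσq : ∀ x, σ x = x ^ q) (S : Finset (Projectivization F (Fin 3 → F)))
    (hS : ∀ x ∈ S, ∀ y ∈ S, ∀ z ∈ S, x ≠ y → y ≠ z → x ≠ z →
          ¬ ((∑ i : Fin 3, x.rep i * (y.rep i) ^ q) = 0 ∧
             (∑ i : Fin 3, y.rep i * (z.rep i) ^ q) = 0 ∧
             (∑ i : Fin 3, x.rep i * (z.rep i) ^ q) = 0)) :
    ((q : ℝ) ^ 2 - 1) * S.card ≤ 45 / 91 * q ^ 6 + 2 * q ^ 5 + q ^ 4 := by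
  classical
  have hσ : ∀ x, σ (σ x) = x := by
    intro x
    rw [hσq, hσq, ← pow_mul, ← sq, ← hq, FiniteField.pow_card]
  have hN : ∀ c : F, c ≠ 0 → σ c = c → ∃ l : F, l * σ l = c := by
    intro c hc h
    rw [hσq] at h
    obtain ⟨l, hl⟩ := norm_surj q hq c hc h
    exact ⟨l, by rw [hσq, hl]⟩
  let W : Finset (Fin 3 → F) :=
    univ.filter (fun v => ∃ hv : v ≠ 0, Projectivization.mk F v hv ∈ S)
  let T : Finset (Fin 3 → F) := W.filter (fun v => hf σ v v ≠ 0)
  have hWs : ∀ (l : F) (v : Fin 3 → F), l ≠ 0 → v ∈ W → l • v ∈ W := by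
    intro l v hl hv
    simp only [W, mem_filter, mem_univ, true_and] at hv ⊢
    obtain ⟨h0, h1⟩ := hv
    refine ⟨smul_ne_zero hl h0, ?_⟩
    have : Projectivization.mk F (l • v) (smul_ne_zero hl h0) = Projectivization.mk F v h0 :=
      (Projectivization.mk_eq_mk_iff' F _ _ _ _).2 ⟨l, rfl⟩
    rwa [this]
  have hTs1 : ∀ (l : F) (v : Fin 3 → F), l ≠ 0 → v ∈ T → l • v ∈ T := by
    intro l v hl hv
    simp only [T, mem_filter] at hv ⊢
    refine ⟨hWs l v hl hv.1, ?_⟩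
    rw [hf_smul]
    exact mul_ne_zero (mul_ne_zero hl (by simpa using hl)) hv.2
  have hTs : ∀ (l : F) (v : Fin 3 → F), l ≠ 0 → (l • v ∈ T ↔ v ∈ T) := by
    intro l v hl
    refine ⟨fun h => ?_, hTs1 l v hl⟩
    have := hTs1 l⁻¹ _ (inv_ne_zero hl) h
    rwa [smul_smul, inv_mul_cancel₀ hl, one_smul] at this
  have hform : ∀ (a b : Fin 3 → F) (ha : a ≠ 0) (hb : b ≠ 0), hf σ a b = 0 →
      (∑ i : Fin 3, (Projectivization.mk F a ha).rep i *
        ((Projectivization.mk F b hb).rep i) ^ q) = 0 := by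
    intro a b ha hb hab
    obtain ⟨u, hu⟩ := Projectivization.exists_smul_eq_mk_rep F a ha
    obtain ⟨u', hu'⟩ := Projectivization.exists_smul_eq_mk_rep F b hb
    have : hf σ ((u : F) • a) ((u' : F) • b) = 0 := by rw [hf_smul, hab, mul_zero]
    rw [← hu, ← hu']
    simpa only [hf, hσq, Units.smul_def] using this
  have hneq : ∀ (a b : Fin 3 → F) (ha : a ≠ 0) (hb : b ≠ 0), hf σ a b = 0 → hf σ b b ≠ 0 →
      Projectivization.mk F a ha ≠ Projectivization.mk F b hb := by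
    intro a b ha hb hab hbb he
    obtain ⟨l, hl⟩ := (Projectivization.mk_eq_mk_iff' F _ _ _ _).1 he
    have := hf_smul σ l 1 b b
    rw [hl, one_smul, hab, map_one, mul_one] at this
    rcases mul_eq_zero.1 this.symm with h | h
    · apply ha; rw [← hl, h, zero_smul]
    · exact hbb h
  have hfree : ∀ a ∈ T, ∀ b ∈ T, ∀ c ∈ T, ¬ Tri σ a b c := by
    intro a ha b hb c hc ht
    simp only [T, W, mem_filter, mem_univ, true_and] at ha hb hc
    obtain ⟨⟨a0, a1⟩, _⟩ := ha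
    obtain ⟨⟨b0, b1⟩, _⟩ := hb
    obtain ⟨⟨c0, c1⟩, _⟩ := hc
    obtain ⟨t1, t2, t3, t4, t5, t6⟩ := ht
    exact hS _ a1 _ b1 _ c1 (hneq _ _ _ _ t4 t2) (hneq _ _ _ _ t5 t3) (hneq _ _ _ _ t6 t3)
      ⟨hform _ _ _ _ t4, hform _ _ _ _ t5, hform _ _ _ _ t6⟩
  have B1 := vec_bound hσ hN q hq T (fun v hv => (mem_filter.1 hv).2) hTs hfree
  have B2 := card_iso (F := F) q hσq
  have B3 : W.card ≤ T.card + (univ.filter (fun v : Fin 3 → F => hf σ v v = 0)).card := by
    refine le_trans (card_le_card ?_) (card_union_le _ _)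
    intro v hv
    by_cases h : hf σ v v = 0
    · exact mem_union_right _ (by simpa using h)
    · exact mem_union_left _ (mem_filter.2 ⟨hv, h⟩)
  have B4 : (S ×ˢ (univ.erase (0 : F))).card ≤ W.card := by
    apply card_le_card_of_injOn (fun p => p.2 • p.1.rep)
    · intro p hp
      simp only [coe_product, Set.mem_prod, mem_coe, mem_erase, mem_univ, and_true] at hp
      apply hWs _ _ hp.2
      simp only [W, mem_filter, mem_univ, true_and]
      exact ⟨p.1.rep_nonzero, by rw [Projectivization.mk_rep]; exact hp.1⟩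
    · intro p hp p' hp' he
      simp only [coe_product, Set.mem_prod, mem_coe, mem_erase, mem_univ, and_true] at hp hp'
      simp only at he
      have e1 : p.1 = p'.1 := by
        rw [← p.1.mk_rep, ← p'.1.mk_rep, Projectivization.mk_eq_mk_iff']
        refine ⟨p.2⁻¹ * p'.2, ?_⟩
        rw [mul_smul, ← he, smul_smul, inv_mul_cancel₀ hp.2, one_smul]
      refine Prod.ext e1 ?_
      rw [e1] at he
      exact smul_left_injective F p'.1.rep_nonzero he
  rw [card_product, card_erase_of_mem (mem_univ _), card_univ, hq] at B4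
  rw [hq] at B2
  have hq1 : 1 ≤ q ^ 2 := by rw [← hq]; exact Fintype.card_pos
  have B5 : (S.card : ℝ) * ((q : ℝ) ^ 2 - 1) ≤ T.card + ((q : ℝ) ^ 2) ^ 2 * (q + 1) := by
    have : S.card * (q ^ 2 - 1) ≤ T.card + (q ^ 2) ^ 2 * (q + 1) := by omega
    have h' : ((S.card * (q ^ 2 - 1) : ℕ) : ℝ) ≤ ((T.card + (q ^ 2) ^ 2 * (q + 1) : ℕ) : ℝ) := by
      exact_mod_cast this
    push_cast [Nat.cast_sub hq1] at h'
    exact h'
  nlinarith [B1, B5]

end Pool.Agent.H730Z.Uni
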